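import Mathlib
import Pool.Agent.Helper509.SphDefs
import Pool.Agent.Helper509.Emp

/-!
Every compactly supported law is the limit of empirical eigenvalue distributions.
-/

set_option autoImplicit false

open MeasureTheory Filter Topology ProbabilityTheory

namespace Pool.Agent.Y381.Sph

open Pool.Agent.Helper509.SphDefs Pool.Agent.Helper509.Emp

/-- a sequence of points in the support with converging averages of powers -/
theorem exists_points {μ : Measure ℝ} [IsProbabilityMeasure μ] {C : ℝ}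
    (hμ : μ (Set.Icc (-C) C)ᶜ = 0) : ∃ ω : ℕ → ℝ, (∀ i, ω i ∈ Set.Icc (-C) C) ∧
    ∀ k : ℕ, Tendsto (fun n : ℕ => (∑ i ∈ Finset.range n, ω i ^ k) / (n : ℝ)) atTop
      (𝓝 (∫ x, x ^ k ∂μ)) := by
  have hae : ∀ᵐ x ∂μ, x ∈ Set.Icc (-C) C := by
    rw [ae_iff]
    exact hμ
  obtain ⟨P, hP⟩ : ∃ P : Measure (ℕ → ℝ), P = Measure.infinitePi (fun _ : ℕ => μ) := ⟨_, rfl⟩
  have hPp : IsProbabilityMeasure P := by rw [hP]; infer_instance
  have heval : ∀ i : ℕ, P.map (fun ω : ℕ → ℝ => ω i) = μ := by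
    intro i
    rw [hP]
    exact Measure.infinitePi_map_eval (fun _ : ℕ => μ) i
  have hmem : ∀ᵐ ω ∂P, ∀ i, ω i ∈ Set.Icc (-C) C := by
    rw [ae_all_iff]
    intro i
    have h1 : ∀ᵐ x ∂(P.map (fun ω : ℕ → ℝ => ω i)), x ∈ Set.Icc (-C) C := by
      rw [heval i]
      exact hae
    exact ae_of_ae_map (measurable_pi_apply i).aemeasurable h1
  have hpow : ∀ᵐ ω ∂P, ∀ k : ℕ, Tendsto (fun n : ℕ => (∑ i ∈ Finset.range n, ω i ^ k) / (n : ℝ))
      atTop (𝓝 (∫ x, x ^ k ∂μ)) := by
    rw [ae_all_iff]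
    intro k
    have hmk : Measurable (fun x : ℝ => x ^ k) := measurable_id.pow_const k
    have hid : ∀ i : ℕ, IdentDistrib (fun ω : ℕ → ℝ => ω i) (fun ω : ℕ → ℝ => ω 0) P P := by
      intro i
      refine ⟨(measurable_pi_apply i).aemeasurable, (measurable_pi_apply 0).aemeasurable, ?_⟩
      rw [heval, heval]
    have hint : Integrable (fun ω : ℕ → ℝ => ω 0 ^ k) P := by
      apply Integrable.of_bound (C := |C| ^ k)
      · exact (hmk.comp (measurable_pi_apply 0)).aestronglyMeasurable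
      · filter_upwards [hmem] with ω hω
        rw [norm_pow, Real.norm_eq_abs]
        apply pow_le_pow_left₀ (abs_nonneg _)
        exact (abs_le.2 (hω 0)).trans (le_abs_self _)
    have hind : iIndepFun (fun i (ω : ℕ → ℝ) => ω i ^ k) P := by
      rw [hP]
      exact iIndepFun_infinitePi (X := fun _ : ℕ => fun x : ℝ => x ^ k) (fun _ => hmk)
    have h1 := strong_law_ae_real (μ := P) (fun i (ω : ℕ → ℝ) => ω i ^ k) hint
      (fun i j hij => hind.indepFun hij) (fun i => (hid i).comp hmk)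
    have h2 : ∫ ω : ℕ → ℝ, ω 0 ^ k ∂P = ∫ x, x ^ k ∂μ := by
      have h3 := integral_map (μ := P) (φ := fun ω : ℕ → ℝ => ω 0) (f := fun x : ℝ => x ^ k)
        (measurable_pi_apply 0).aemeasurable hmk.aestronglyMeasurable
      rw [heval 0] at h3
      exact h3.symm
    rw [h2] at h1
    exact h1
  obtain ⟨ω, h1, h2⟩ := (hmem.and hpow).exists
  exact ⟨ω, h1, h2⟩

/-- averages of continuous functions -/
theorem tendsto_avg {μ : Measure ℝ} [IsProbabilityMeasure μ] {C : ℝ}
    (hμ : μ (Set.Icc (-C) C)ᶜ = 0) {ω : ℕ → ℝ} (h1 : ∀ i, ω i ∈ Set.Icc (-C) C)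
    (h2 : ∀ k : ℕ, Tendsto (fun n : ℕ => (∑ i ∈ Finset.range n, ω i ^ k) / (n : ℝ)) atTop
      (𝓝 (∫ x, x ^ k ∂μ))) {φ : ℝ → ℝ} (hφ : Continuous φ) :
    Tendsto (fun n : ℕ => (∑ i ∈ Finset.range n, φ (ω i)) / (n : ℝ)) atTop (𝓝 (∫ x, φ x ∂μ)) := by
  have hae : ∀ᵐ x ∂μ, x ∈ Set.Icc (-C) C := by
    rw [ae_iff]
    exact hμ
  have hint : ∀ (f : ℝ → ℝ), Continuous f → Integrable f μ := by
    intro f hf
    obtain ⟨M, hM⟩ := (isCompact_Icc (a := -C) (b := C)).exists_bound_of_continuousOn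
      hf.continuousOn
    exact Integrable.of_bound hf.aestronglyMeasurable M (by
      filter_upwards [hae] with x hx
      exact hM x hx)
  have hpoly : ∀ p : Polynomial ℝ, Tendsto (fun n : ℕ =>
      (∑ i ∈ Finset.range n, p.eval (ω i)) / (n : ℝ)) atTop (𝓝 (∫ x, p.eval x ∂μ)) := by
    intro p
    have h3 : Tendsto (fun n : ℕ => ∑ k ∈ Finset.range (p.natDegree + 1), p.coeff k *
        ((∑ i ∈ Finset.range n, ω i ^ k) / (n : ℝ))) atTop
        (𝓝 (∑ k ∈ Finset.range (p.natDegree + 1), p.coeff k * ∫ x, x ^ k ∂μ)) :=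
      tendsto_finsetSum _ fun k _ => (h2 k).const_mul _
    have h4 : ∫ x, p.eval x ∂μ = ∑ k ∈ Finset.range (p.natDegree + 1), p.coeff k * ∫ x, x ^ k ∂μ := by
      simp_rw [Polynomial.eval_eq_sum_range]
      rw [integral_finsetSum]
      · refine Finset.sum_congr rfl fun k _ => ?_
        rw [integral_const_mul]
      · intro k _
        exact (hint _ (continuous_pow k)).const_mul _
    rw [h4]
    refine h3.congr fun n => ?_
    simp_rw [Polynomial.eval_eq_sum_range]
    rw [Finset.sum_comm, Finset.sum_div]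
    refine Finset.sum_congr rfl fun k _ => ?_
    rw [← Finset.mul_sum, mul_div_assoc]
  rw [Metric.tendsto_atTop]
  intro ε hε
  obtain ⟨p, hp⟩ := exists_polynomial_near_of_continuousOn (-C) C φ hφ.continuousOn (ε / 4)
    (by positivity)
  obtain ⟨n0, hn0⟩ := Metric.tendsto_atTop.1 (hpoly p) (ε / 4) (by positivity)
  refine ⟨n0 + 1, fun n hn => ?_⟩
  have hn1 : (0 : ℝ) < n := by
    have : 0 < n := by omega
    exact_mod_cast this
  have h3 := hn0 n (by omega)
  rw [Real.dist_eq] at h3 ⊢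
  have h4 : |(∑ i ∈ Finset.range n, φ (ω i)) / (n : ℝ) -
      (∑ i ∈ Finset.range n, p.eval (ω i)) / (n : ℝ)| ≤ ε / 4 := by
    rw [← sub_div, ← Finset.sum_sub_distrib, abs_div, abs_of_pos hn1, div_le_iff₀ hn1]
    refine (Finset.abs_sum_le_sum_abs _ _).trans ?_
    calc ∑ i ∈ Finset.range n, |φ (ω i) - p.eval (ω i)| ≤ ∑ _i ∈ Finset.range n, ε / 4 := by
          apply Finset.sum_le_sum
          intro i _
          rw [abs_sub_comm]
          exact (hp (ω i) (h1 i)).le
      _ = ε / 4 * n := by rw [Finset.sum_const, Finset.card_range, nsmul_eq_mul, mul_comm]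
  have h5 : |∫ x, p.eval x ∂μ - ∫ x, φ x ∂μ| ≤ ε / 4 := by
    rw [← integral_sub (hint _ p.continuous) (hint _ hφ)]
    have h6 := norm_integral_le_of_norm_le_const (μ := μ) (f := fun x => p.eval x - φ x)
      (C := ε / 4) (by
        filter_upwards [hae] with x hx
        rw [Real.norm_eq_abs]
        exact (hp x hx).le)
    rw [probReal_univ, mul_one, Real.norm_eq_abs] at h6
    exact h6
  rw [abs_le] at h4 h5
  rw [abs_lt] at h3 ⊢
  constructor <;> linarith

/-- every compactly supported law has an admissible sequence -/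
theorem exists_adm {μ : Measure ℝ} (hμ : CompactProb μ) :
    ∃ E : ∀ n : ℕ, Matrix (Fin n) (Fin n) ℂ, Admissible E μ := by
  obtain ⟨hp, C, hC⟩ := hμ
  obtain ⟨ω, h1, h2⟩ := exists_points hC
  let d : ∀ n : ℕ, Fin n → ℝ := fun n i => ω i
  let E : ∀ n : ℕ, Matrix (Fin n) (Fin n) ℂ := fun n => Matrix.diagonal (fun i => ((d n i : ℝ) : ℂ))
  have hE : ∀ n, (E n).IsHermitian := by
    intro n
    apply Matrix.isHermitian_diagonal_of_self_adjoint
    ext i
    simp
  refine ⟨E, hE, ?_, ?_⟩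
  · refine ⟨C, fun n i => ?_⟩
    apply eigenvalues_diagonal_mem (d n) (hE n) C
    intro j
    exact abs_le.2 (h1 j)
  · intro φ
    refine (tendsto_avg hC h1 h2 φ.continuous).congr fun n => ?_
    congr 1
    rw [sum_eigenvalues_diagonal (d n) (hE n) (fun x => φ x)]
    rw [Finset.sum_range]

end Pool.Agent.Y381.Sph
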