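import Mathlib
import Pool.Agent.Helper509.SphDefs

/-!
Laws with a constant R-transform are point masses; the R-transform of a point mass.
-/

set_option autoImplicit false

open MeasureTheory Filter Topology

namespace Pool.Agent.Y381.Sph

open Pool.Agent.Helper509.SphDefs

/-- the open upper half-plane -/
theorem isOpen_up : IsOpen {z : ℂ | 0 < z.im} := isOpen_lt continuous_const Complex.continuous_im

theorem convex_up : Convex ℝ {z : ℂ | 0 < z.im} := by
  intro x hx y hy a b ha hb hab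
  simp only [Set.mem_ofPred_eq] at hx hy ⊢
  rw [Complex.add_im, Complex.real_smul, Complex.real_smul, Complex.im_ofReal_mul,
    Complex.im_ofReal_mul]
  rcases eq_or_lt_of_le ha with h | h
  · rw [← h] at hab ⊢
    rw [zero_add] at hab
    rw [hab]
    linarith
  · have h1 : 0 < a * x.im := mul_pos h hx
    have h2 : 0 ≤ b * y.im := mul_nonneg hb hy.le
    linarith

/-- points of the upper half-plane near `0` -/
theorem neBot_up : (𝓝[{z : ℂ | 0 < z.im}] (0 : ℂ)).NeBot := by
  rw [← mem_closure_iff_nhdsWithin_neBot, mem_closure_iff_seq_limit]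
  refine ⟨fun n : ℕ => ((1 / ((n : ℝ) + 1) : ℝ) : ℂ) * Complex.I, fun n => ?_, ?_⟩
  · simp only [Set.mem_ofPred_eq, Complex.im_ofReal_mul, Complex.I_im, mul_one]
    positivity
  · have h1 : Tendsto (fun n : ℕ => ((1 / ((n : ℝ) + 1) : ℝ) : ℂ)) atTop (𝓝 ((0 : ℝ) : ℂ)) :=
      (Complex.continuous_ofReal.tendsto 0).comp tendsto_one_div_add_atTop_nhds_zero_nat
    have h2 := h1.mul_const Complex.I
    simpa using h2

/-- an analytic function on the upper half-plane which is constant near `0` is constant -/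
theorem eq_const_up {R : ℂ → ℂ} (hR : DifferentiableOn ℂ R {z : ℂ | 0 < z.im}) {c : ℂ}
    (h : ∀ᶠ z in 𝓝[{z : ℂ | 0 < z.im}] (0 : ℂ), R z = c) : ∀ z : ℂ, 0 < z.im → R z = c := by
  have := neBot_up
  rw [eventually_nhdsWithin_iff, Metric.eventually_nhds_iff_ball] at h
  obtain ⟨ε, hε, hb⟩ := h
  obtain ⟨z1, hz1⟩ : ∃ z1 : ℂ, z1 = ((ε / 2 : ℝ) : ℂ) * Complex.I := ⟨_, rfl⟩
  have hz1im : 0 < z1.im := by
    rw [hz1, Complex.im_ofReal_mul, Complex.I_im, mul_one]
    positivity
  have hz1b : z1 ∈ Metric.ball (0 : ℂ) ε := by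
    rw [mem_ball_zero_iff, hz1, norm_mul, Complex.norm_I, mul_one, Complex.norm_real,
      Real.norm_of_nonneg (by positivity)]
    linarith
  have han : AnalyticOnNhd ℂ R {z : ℂ | 0 < z.im} := hR.analyticOnNhd isOpen_up
  have hcn : AnalyticOnNhd ℂ (fun _ : ℂ => c) {z : ℂ | 0 < z.im} := analyticOnNhd_const
  have hev : R =ᶠ[𝓝 z1] fun _ => c := by
    filter_upwards [Metric.isOpen_ball.mem_nhds hz1b, isOpen_up.mem_nhds hz1im] with z h1 h2
    exact hb z h1 h2
  intro z hz
  exact han.eqOn_of_preconnected_of_eventuallyEq hcn convex_up.isPreconnected hz1im hev hz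

/-- the R-transform of a point mass is constant -/
theorem rTransform_dirac {a : ℝ} {R : ℂ → ℂ} (hR : IsRTransform (Measure.dirac a) R) :
    ∀ᶠ z in 𝓝[≠] (0 : ℂ), R z = (a : ℂ) := by
  filter_upwards [hR.2, self_mem_nhdsWithin] with z hz hz0
  have hz0' : z ≠ 0 := hz0
  rw [cauchyT, integral_dirac] at hz
  have h1 : R z + 1 / z - (a : ℂ) = z⁻¹ := inv_eq_iff_eq_inv.1 hz
  have h2 : R z - (a : ℂ) = 0 := by
    have : R z - (a : ℂ) = (R z + 1 / z - a) - 1 / z := by ring
    rw [this, h1, one_div, sub_self]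
  exact sub_eq_zero.1 h2

theorem rContinuation_dirac {a : ℝ} {R : ℂ → ℂ} (hR : IsRContinuation (Measure.dirac a) R) :
    ∀ z : ℂ, 0 < z.im → R z = (a : ℂ) := by
  obtain ⟨hd, R₀, hR₀, hev⟩ := hR
  apply eq_const_up hd
  have h1 := rTransform_dirac hR₀
  have h2 : ∀ᶠ z in 𝓝[{z : ℂ | 0 < z.im}] (0 : ℂ), R₀ z = (a : ℂ) := by
    apply Filter.Eventually.filter_mono _ h1
    apply nhdsWithin_mono
    intro z hz h0
    rw [Set.mem_singleton_iff] at h0
    rw [h0] at hz
    simp at hz
  filter_upwards [hev, h2] with z h3 h4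
  rw [h3, h4]

theorem isRTransform_dirac (a : ℝ) : IsRTransform (Measure.dirac a) (fun _ => (a : ℂ)) := by
  refine ⟨analyticAt_const, ?_⟩
  filter_upwards [self_mem_nhdsWithin] with z hz0
  rw [cauchyT, integral_dirac, add_sub_cancel_left, one_div, inv_inv]

/-- a limit of integrals -/
theorem lim_int (μ : Measure ℝ) [IsProbabilityMeasure μ] {C : ℝ} (hC : 0 ≤ C)
    (hμ : μ (Set.Icc (-C) C)ᶜ = 0) (c : ℂ) (f : ℂ → ℂ) (hf : Continuous f) :
    Tendsto (fun n : ℕ => ∫ x : ℝ, f (c - x) / (1 + (c - x) * (1 / ((n : ℂ) + 1))) ∂μ) atTop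
      (𝓝 (∫ x : ℝ, f (c - x) ∂μ)) := by
  have hK : IsCompact (Set.Icc (-C) C) := isCompact_Icc
  have hcont : Continuous (fun x : ℝ => f (c - x)) :=
    hf.comp (continuous_const.sub Complex.continuous_ofReal)
  obtain ⟨M, hM⟩ := hK.exists_bound_of_continuousOn hcont.continuousOn
  have hae : ∀ᵐ x ∂μ, x ∈ Set.Icc (-C) C := by
    rw [ae_iff]
    exact hμ
  have hb : ∀ x ∈ Set.Icc (-C) C, ‖c - (x : ℂ)‖ ≤ ‖c‖ + C := by
    intro x hx
    refine (norm_sub_le _ _).trans ?_
    rw [Complex.norm_real, Real.norm_eq_abs]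
    have : |x| ≤ C := abs_le.2 hx
    linarith
  obtain ⟨n0, hn0⟩ := exists_nat_ge (2 * (‖c‖ + C))
  have hlow : ∀ n ≥ n0, ∀ x ∈ Set.Icc (-C) C, 1 / 2 ≤ ‖1 + (c - (x : ℂ)) * (1 / ((n : ℂ) + 1))‖ := by
    intro n hn x hx
    have h1 : ‖(c - (x : ℂ)) * (1 / ((n : ℂ) + 1))‖ ≤ 1 / 2 := by
      have e : (1 / ((n : ℂ) + 1)) = ((1 / ((n : ℝ) + 1) : ℝ) : ℂ) := by push_cast; rfl
      rw [e, norm_mul, Complex.norm_real, Real.norm_of_nonneg (by positivity), mul_one_div,
        div_le_iff₀ (by positivity)]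
      have h2 := hb x hx
      have h3 : (n0 : ℝ) ≤ n := by exact_mod_cast hn
      linarith
    have h2 := norm_sub_norm_le (1 : ℂ) (-((c - (x : ℂ)) * (1 / ((n : ℂ) + 1))))
    rw [sub_neg_eq_add, norm_neg, norm_one] at h2
    linarith
  have hmain : Tendsto (fun n : ℕ => ∫ x : ℝ, f (c - x) /
      (1 + (c - x) * (1 / (((n + n0 : ℕ) : ℂ) + 1))) ∂μ) atTop (𝓝 (∫ x : ℝ, f (c - x) ∂μ)) := by
    apply tendsto_integral_of_dominated_convergence (fun _ => 2 * M)
    · intro n
      apply Measurable.aestronglyMeasurable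
      apply Measurable.div hcont.measurable
      apply Continuous.measurable
      exact continuous_const.add ((continuous_const.sub Complex.continuous_ofReal).mul
        continuous_const)
    · exact integrable_const _
    · intro n
      filter_upwards [hae] with x hx
      rw [norm_div]
      have h1 := hlow (n + n0) (Nat.le_add_left _ _) x hx
      have h2 := hM x hx
      rw [div_le_iff₀ (by linarith)]
      have h3 : 0 ≤ M := (norm_nonneg _).trans h2
      nlinarith
    · filter_upwards with x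
      have h1 : Tendsto (fun n : ℕ => (1 / (((n + n0 : ℕ) : ℂ) + 1))) atTop (𝓝 0) := by
        have h2 : Tendsto (fun n : ℕ => ((1 / ((n : ℝ) + 1) : ℝ) : ℂ)) atTop (𝓝 ((0 : ℝ) : ℂ)) :=
          (Complex.continuous_ofReal.tendsto 0).comp tendsto_one_div_add_atTop_nhds_zero_nat
        have h3 := (tendsto_add_atTop_iff_nat n0).2 h2
        refine h3.congr fun n => ?_
        push_cast
        rfl
      have h2 : Tendsto (fun n : ℕ => 1 + (c - (x : ℂ)) * (1 / (((n + n0 : ℕ) : ℂ) + 1))) atTop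
          (𝓝 (1 + (c - (x : ℂ)) * 0)) := (h1.const_mul _).const_add _
      rw [mul_zero, add_zero] at h2
      have h3 := (tendsto_const_nhds (x := f (c - x))).div h2 one_ne_zero
      rwa [div_one] at h3
  exact (tendsto_add_atTop_iff_nat n0).1 hmain

/-- a compactly supported law whose R-transform is constant near `0` is a point mass -/
theorem dirac_of_const {μ : Measure ℝ} (hμ : CompactProb μ) {c : ℂ}
    (h : ∀ᶠ z in 𝓝[≠] (0 : ℂ), cauchyT μ (c + 1 / z) = z) : ∃ a : ℝ, μ = Measure.dirac a := by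
  obtain ⟨hp, C0, hC0⟩ := hμ
  obtain ⟨C, hCdef⟩ : ∃ C : ℝ, C = max C0 0 := ⟨_, rfl⟩
  have hC : 0 ≤ C := by rw [hCdef]; exact le_max_right _ _
  have hCC : C0 ≤ C := by rw [hCdef]; exact le_max_left _ _
  have hsupp : μ (Set.Icc (-C) C)ᶜ = 0 := by
    apply measure_mono_null _ hC0
    apply Set.compl_subset_compl.2
    exact Set.Icc_subset_Icc (by linarith) hCC
  have hae : ∀ᵐ x ∂μ, x ∈ Set.Icc (-C) C := by
    rw [ae_iff]
    exact hsupp
  have hint : ∀ (f : ℝ → ℂ), Continuous f → Integrable f μ := by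
    intro f hf
    obtain ⟨M, hM⟩ := (isCompact_Icc (a := -C) (b := C)).exists_bound_of_continuousOn
      hf.continuousOn
    exact Integrable.of_bound hf.aestronglyMeasurable M (by
      filter_upwards [hae] with x hx
      exact hM x hx)
  -- the sequence of points
  have hseq : Tendsto (fun n : ℕ => (1 / ((n : ℂ) + 1))) atTop (𝓝[≠] 0) := by
    rw [tendsto_nhdsWithin_iff]
    constructor
    · have h2 : Tendsto (fun n : ℕ => ((1 / ((n : ℝ) + 1) : ℝ) : ℂ)) atTop (𝓝 ((0 : ℝ) : ℂ)) :=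
        (Complex.continuous_ofReal.tendsto 0).comp tendsto_one_div_add_atTop_nhds_zero_nat
      refine h2.congr fun n => ?_
      push_cast
      rfl
    · filter_upwards with n
      have : ((n : ℂ) + 1) ≠ 0 := by exact_mod_cast Nat.succ_ne_zero n
      simpa using this
  have h1 := hseq.eventually h
  obtain ⟨n0, hn0⟩ := exists_nat_ge (2 * (‖c‖ + C))
  have hne : ∀ n ≥ n0, ∀ x ∈ Set.Icc (-C) C, 1 + (c - (x : ℂ)) * (1 / ((n : ℂ) + 1)) ≠ 0 := by
    intro n hn x hx h0
    have h2 : ‖(c - (x : ℂ)) * (1 / ((n : ℂ) + 1))‖ ≤ 1 / 2 := by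
      have e : (1 / ((n : ℂ) + 1)) = ((1 / ((n : ℝ) + 1) : ℝ) : ℂ) := by push_cast; rfl
      rw [e, norm_mul, Complex.norm_real, Real.norm_of_nonneg (by positivity), mul_one_div,
        div_le_iff₀ (by positivity)]
      have h3 : (n0 : ℝ) ≤ n := by exact_mod_cast hn
      have h4 : ‖c - (x : ℂ)‖ ≤ ‖c‖ + C := by
        refine (norm_sub_le _ _).trans ?_
        rw [Complex.norm_real, Real.norm_eq_abs]
        have : |x| ≤ C := abs_le.2 hx
        linarith
      linarith
    have h3 : (c - (x : ℂ)) * (1 / ((n : ℂ) + 1)) = -1 := by linear_combination h0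
    rw [h3, norm_neg, norm_one] at h2
    norm_num at h2
  have hmeas : ∀ (f : ℂ → ℂ), Continuous f → ∀ n ≥ n0, Integrable (fun x : ℝ => f (c - x) /
      (1 + (c - x) * (1 / ((n : ℂ) + 1)))) μ := by
    intro f hf n hn
    obtain ⟨M, hM⟩ := (isCompact_Icc (a := -C) (b := C)).exists_bound_of_continuousOn
      (f := fun x : ℝ => f (c - x) / (1 + (c - x) * (1 / ((n : ℂ) + 1)))) (by
        apply ContinuousOn.div
        · exact (hf.comp (continuous_const.sub Complex.continuous_ofReal)).continuousOn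
        · exact (continuous_const.add ((continuous_const.sub Complex.continuous_ofReal).mul
            continuous_const)).continuousOn
        · exact hne n hn)
    refine Integrable.of_bound ?_ M (by
      filter_upwards [hae] with x hx
      exact hM x hx)
    apply Measurable.aestronglyMeasurable
    apply Measurable.div
    · exact (hf.comp (continuous_const.sub Complex.continuous_ofReal)).measurable
    · exact (continuous_const.add ((continuous_const.sub Complex.continuous_ofReal).mul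
        continuous_const)).measurable
  -- first moment
  have hkey1 : ∀ᶠ n : ℕ in atTop, ∫ x : ℝ, (fun u : ℂ => u) (c - x) /
      (1 + (c - x) * (1 / ((n : ℂ) + 1))) ∂μ = 0 := by
    filter_upwards [h1, eventually_ge_atTop n0] with n hn hn0'
    have hn1 : ((n : ℂ) + 1) ≠ 0 := by exact_mod_cast Nat.succ_ne_zero n
    have e1 : cauchyT μ (c + 1 / (1 / ((n : ℂ) + 1))) = ∫ x : ℝ, ((1 / ((n : ℂ) + 1)) -
        (1 / ((n : ℂ) + 1)) ^ 2 * ((c - x) / (1 + (c - x) * (1 / ((n : ℂ) + 1))))) ∂μ := by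
      rw [cauchyT]
      apply integral_congr_ae
      filter_upwards [hae] with x hx
      have h2 := hne n hn0' x hx
      have h3 : c + 1 / (1 / ((n : ℂ) + 1)) - x = ((n : ℂ) + 1) *
          (1 + (c - x) * (1 / ((n : ℂ) + 1))) := by
        field_simp
        ring
      rw [h3, mul_inv]
      generalize hD : (1 + (c - (x : ℂ)) * (1 / ((n : ℂ) + 1))) = D at h2
      have h4 : (c - (x : ℂ)) = (D - 1) * ((n : ℂ) + 1) := by
        rw [← hD]
        field_simp
        ring
      rw [h4]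
      field_simp
      ring
    have hi1 := hmeas (fun u => u) continuous_id n hn0'
    rw [hn] at e1
    rw [integral_sub (integrable_const _) (hi1.const_mul _), integral_const, probReal_univ,
      one_smul, integral_const_mul] at e1
    have h5 : (1 / ((n : ℂ) + 1)) ^ 2 * ∫ x : ℝ, (c - x) / (1 + (c - x) * (1 / ((n : ℂ) + 1))) ∂μ =
        0 := by linear_combination e1
    rcases mul_eq_zero.1 h5 with h6 | h6
    · exfalso
      have : (1 / ((n : ℂ) + 1)) ≠ 0 := by simpa using hn1
      exact this (pow_eq_zero_iff (two_ne_zero) |>.1 h6)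
    · exact h6
  have hm1 : ∫ x : ℝ, (c - x) ∂μ = 0 := by
    have h2 := lim_int μ hC hsupp c (fun u => u) continuous_id
    have h3 : Tendsto (fun n : ℕ => ∫ x : ℝ, (fun u : ℂ => u) (c - x) /
      (1 + (c - x) * (1 / ((n : ℂ) + 1))) ∂μ) atTop (𝓝 0) :=
      tendsto_const_nhds.congr' (by
        filter_upwards [hkey1] with n hn
        exact hn.symm)
    exact tendsto_nhds_unique h2 h3
  -- second moment
  have hkey2 : ∀ᶠ n : ℕ in atTop, ∫ x : ℝ, (fun u : ℂ => u ^ 2) (c - x) /
      (1 + (c - x) * (1 / ((n : ℂ) + 1))) ∂μ = 0 := by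
    filter_upwards [hkey1, eventually_ge_atTop n0] with n hn hn0'
    have hn1 : ((n : ℂ) + 1) ≠ 0 := by exact_mod_cast Nat.succ_ne_zero n
    have e1 : ∫ x : ℝ, (fun u : ℂ => u) (c - x) / (1 + (c - x) * (1 / ((n : ℂ) + 1))) ∂μ =
        ∫ x : ℝ, ((c - x) - (1 / ((n : ℂ) + 1)) * ((c - x) ^ 2 /
          (1 + (c - x) * (1 / ((n : ℂ) + 1))))) ∂μ := by
      apply integral_congr_ae
      filter_upwards [hae] with x hx
      have h2 := hne n hn0' x hx
      rw [div_eq_iff h2, sub_mul, mul_assoc, div_mul_cancel₀ _ h2]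
      ring
    have hi2 := hmeas (fun u => u ^ 2) (continuous_pow 2) n hn0'
    have hi1 : Integrable (fun x : ℝ => c - (x : ℂ)) μ :=
      hint _ (continuous_const.sub Complex.continuous_ofReal)
    rw [hn, integral_sub hi1 (hi2.const_mul _), hm1, integral_const_mul] at e1
    have h5 : (1 / ((n : ℂ) + 1)) * ∫ x : ℝ, (c - x) ^ 2 / (1 + (c - x) * (1 / ((n : ℂ) + 1))) ∂μ =
        0 := by linear_combination e1
    rcases mul_eq_zero.1 h5 with h6 | h6
    · exfalso
      have : (1 / ((n : ℂ) + 1)) ≠ 0 := by simpa using hn1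
      exact this h6
    · exact h6
  have hm2 : ∫ x : ℝ, (c - (x : ℂ)) ^ 2 ∂μ = 0 := by
    have h2 := lim_int μ hC hsupp c (fun u => u ^ 2) (continuous_pow 2)
    have h3 : Tendsto (fun n : ℕ => ∫ x : ℝ, (fun u : ℂ => u ^ 2) (c - x) /
      (1 + (c - x) * (1 / ((n : ℂ) + 1))) ∂μ) atTop (𝓝 0) :=
      tendsto_const_nhds.congr' (by
        filter_upwards [hkey2] with n hn
        exact hn.symm)
    exact tendsto_nhds_unique h2 h3
  -- `c` is real
  have hcr : c = ((∫ x : ℝ, x ∂μ : ℝ) : ℂ) := by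
    have h2 : Integrable (fun x : ℝ => (x : ℂ)) μ := hint _ Complex.continuous_ofReal
    rw [integral_sub (integrable_const _) h2, integral_const, probReal_univ, one_smul,
      integral_complex_ofReal] at hm1
    linear_combination hm1
  obtain ⟨m, hm⟩ : ∃ m : ℝ, m = ∫ x : ℝ, x ∂μ := ⟨_, rfl⟩
  rw [← hm] at hcr
  have hvar : ∫ x : ℝ, (m - x) ^ 2 ∂μ = 0 := by
    have h2 : ∫ x : ℝ, (c - (x : ℂ)) ^ 2 ∂μ = ((∫ x : ℝ, (m - x) ^ 2 ∂μ : ℝ) : ℂ) := by
      rw [← integral_complex_ofReal]
      congr 1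
      funext x
      rw [hcr]
      push_cast
      rfl
    rw [h2] at hm2
    exact_mod_cast hm2
  have hrint : Integrable (fun x : ℝ => (m - x) ^ 2) μ := by
    obtain ⟨M, hM⟩ := (isCompact_Icc (a := -C) (b := C)).exists_bound_of_continuousOn
      (f := fun x : ℝ => (m - x) ^ 2) (by fun_prop)
    refine Integrable.of_bound (by fun_prop) M (by
      filter_upwards [hae] with x hx
      exact hM x hx)
  rw [integral_eq_zero_iff_of_nonneg (fun x => sq_nonneg _) hrint] at hvar
  refine ⟨m, ?_⟩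
  have h7 : (fun x : ℝ => x) =ᵐ[μ] fun _ => m := by
    filter_upwards [hvar] with x hx
    have hx' : (m - x) ^ 2 = 0 := hx
    have := pow_eq_zero_iff (two_ne_zero) |>.1 hx'
    linarith
  have h8 : μ.map (fun x : ℝ => x) = μ.map (fun _ => m) := Measure.map_congr h7
  rw [Measure.map_const, measure_univ, one_smul] at h8
  have h9 : μ.map (fun x : ℝ => x) = μ := Measure.map_id
  rw [h9] at h8
  exact h8

/-- if the continuation of the R-transform to the upper half-plane has derivative zero, the law is a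
point mass -/
theorem dirac_of_deriv_zero {μ : Measure ℝ} (hμ : CompactProb μ) {R : ℂ → ℂ}
    (hR : IsRContinuation μ R) (h : ∀ z : ℂ, 0 < z.im → deriv R z = 0) :
    ∃ a : ℝ, μ = Measure.dirac a := by
  obtain ⟨hd, R₀, hR₀, hev⟩ := hR
  have hne := neBot_up
  obtain ⟨c, hc⟩ : ∃ c : ℂ, c = R Complex.I := ⟨_, rfl⟩
  have hconst : ∀ z : ℂ, 0 < z.im → R z = c := by
    intro z hz
    rw [hc]
    exact isOpen_up.is_const_of_deriv_eq_zero convex_up.isPreconnected hd
      (fun w hw => h w hw) hz (by simp)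
  have h1 : ∀ᶠ z in 𝓝[{z : ℂ | 0 < z.im}] (0 : ℂ), R₀ z = c := by
    filter_upwards [hev, self_mem_nhdsWithin] with z h2 h3
    rw [← h2]
    exact hconst z h3
  have h2 : ∀ᶠ z in 𝓝 (0 : ℂ), R₀ z = c := by
    rw [← hR₀.1.frequently_eq_iff_eventually_eq analyticAt_const]
    have h3 : ∃ᶠ z in 𝓝[{z : ℂ | 0 < z.im}] (0 : ℂ), R₀ z = c := h1.frequently
    apply h3.filter_mono
    apply nhdsWithin_mono
    intro z hz h0
    rw [Set.mem_singleton_iff] at h0
    rw [h0] at hz
    simp at hz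
  apply dirac_of_const hμ (c := c)
  filter_upwards [hR₀.2, h2.filter_mono nhdsWithin_le_nhds] with z h3 h4
  rw [← h4]
  exact h3

end Pool.Agent.Y381.Sph
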