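import Mathlib
import Pool.Agent.Helper509.LogDeriv
import Pool.Agent.Helper509.Strip
import Pool.Agent.Helper509.Conv

set_option autoImplicit false

open Metric Complex MeasureTheory Set Filter Topology

namespace Pool.Agent.Y381.Sph

open Pool.Agent.Helper509.Strip Pool.Agent.Helper509.LogDeriv Pool.Agent.Helper509.Conv
  Pool.Agent.Helper509.Polar

/-- normalised logarithmic derivative -/
noncomputable def nld (wt : ℕ → ℝ) (F : ℕ → ℂ → ℂ) (n : ℕ) (z : ℂ) : ℂ :=
  deriv (F n) z / ((wt n : ℂ) * F n z)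

/-- one-radius decomposition data for the sequence -/
structure Decomp (wt : ℕ → ℝ) (F : ℕ → ℂ → ℂ) (C r : ℝ) (N : ℕ → ℕ) (ρ : ∀ n, Fin (N n) → ℂ)
    (H A : ℕ → ℂ → ℂ) : Prop where
  hH : ∀ n, Differentiable ℂ (H n)
  hfac : ∀ n z, F n z = (∏ i, (z - ρ n i)) * H n z
  hρ : ∀ n i, ρ n i ∈ closedBall (0 : ℂ) r
  hN : ∀ n : ℕ, (1 / wt n) * N n ≤ 5 * r * C
  hA : ∀ n, DifferentiableOn ℂ (A n) (ball 0 r)
  hAE : ∀ n : ℕ, ∀ z ∈ ball (0 : ℂ) r, z ∉ range (ρ n) →
    nld wt F n z = ((1 / wt n : ℝ) : ℂ) * (∑ i, (z - ρ n i)⁻¹) + A n z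
  hAb : ∀ n, ∀ z ∈ ball (0 : ℂ) (r / 4), ‖A n z‖ ≤ 24 * C
  hAd : ∀ n, ∀ z ∈ ball (0 : ℂ) (r / 8), ‖deriv (A n) z‖ ≤ 192 * C / r

variable {wt : ℕ → ℝ} {F : ℕ → ℂ → ℂ} {G : ℕ → ℝ → ℝ} {C : ℝ}

theorem exists_decomp (hC : 0 < C) (hwt : ∀ n, 0 < wt n) (h : ∀ n : ℕ, LaplaceLike (F n) (G n) (C * wt n))
    {r : ℝ} (hr : 0 < r) :
    ∃ (N : ℕ → ℕ) (ρ : ∀ n, Fin (N n) → ℂ) (H A : ℕ → ℂ → ℂ), Decomp wt F C r N ρ H A := by
  have key := fun n : ℕ => logDeriv_decomp (h n).diff (L := C * wt n) (r := r)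
    (mul_pos hC (hwt n)) hr (h n).zero ((h n).growth (mul_pos hC (hwt n)).le)
  choose N ρ H A hH hfac hρ hcount hA hHne hdec hAb hAd using key
  refine ⟨N, ρ, H, fun n z => ((1 / wt n : ℝ) : ℂ) * A n z, hH, hfac, hρ, ?_, ?_, ?_, ?_, ?_⟩
  · intro n
    have h1 := Real.log_le_log (by positivity) (hcount n)
    rw [Real.log_pow, Real.log_exp] at h1
    have h2 : (0.6931471803 : ℝ) < Real.log 2 := Real.log_two_gt_d9
    have hn : (0 : ℝ) < wt n := hwt n
    rw [one_div, inv_mul_le_iff₀ hn]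
    have h3 : (N n : ℝ) * (3 / 5) ≤ N n * Real.log 2 := by
      apply mul_le_mul_of_nonneg_left _ (by positivity)
      linarith
    nlinarith
  · intro n
    exact (hA n).const_mul _
  · intro n z hz hzr
    have hFz : F n z ≠ 0 := by
      rw [hfac n z]
      refine mul_ne_zero (Finset.prod_ne_zero_iff.mpr ?_) (hHne n z hz)
      intro i _ h0
      exact hzr ⟨i, (sub_eq_zero.mp h0).symm⟩
    have h1 := hdec n z hz hFz
    have hn : (wt n : ℂ) ≠ 0 := by exact_mod_cast (hwt n).ne'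
    have e : nld wt F n z = ((1 / wt n : ℝ) : ℂ) * (deriv (F n) z / F n z) := by
      unfold nld
      push_cast
      field_simp
    rw [e, h1, mul_add]
  · intro n z hz
    have hn : (0 : ℝ) < wt n := hwt n
    have h1 := hAb n z hz
    rw [norm_mul, Complex.norm_real, Real.norm_of_nonneg (by positivity), one_div, inv_mul_le_iff₀ hn]
    linarith
  · intro n z hz
    have hn : (0 : ℝ) < wt n := hwt n
    have h1 := hAd n z hz
    have hzr : z ∈ ball (0 : ℂ) r := ball_subset_ball (by linarith) hz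
    have hd : DifferentiableAt ℂ (A n) z := (hA n).differentiableAt (isOpen_ball.mem_nhds hzr)
    rw [deriv_const_mul _ hd, norm_mul, Complex.norm_real, Real.norm_of_nonneg (by positivity), one_div,
      inv_mul_le_iff₀ hn]
    calc ‖deriv (A n) z‖ ≤ 192 * (C * wt n) / r := h1
      _ = wt n * (192 * C / r) := by ring

theorem ae_notMem_range {N : ℕ} (ρ : Fin N → ℂ) (B : Set ℂ) :
    ∀ᵐ z ∂(volume.restrict B), z ∉ range ρ := by
  apply ae_restrict_of_ae
  rw [ae_iff]
  simp only [not_not]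
  exact (finite_range ρ).measure_zero _

theorem measurable_nld (h : ∀ n : ℕ, LaplaceLike (F n) (G n) (C * wt n)) (n : ℕ) :
    Measurable (nld wt F n) := by
  unfold nld
  apply Measurable.div
  · exact (measurable_deriv (F n))
  · exact ((h n).diff.continuous.measurable).const_mul _

/-- `L¹` convergence on discs where pointwise convergence holds -/
theorem L1_conv (hC : 0 < C) (hwt : ∀ n, 0 < wt n) (h : ∀ n : ℕ, LaplaceLike (F n) (G n) (C * wt n))
    {r : ℝ} (hr : 0 < r) {N : ℕ → ℕ} {ρ : ∀ n, Fin (N n) → ℂ} {H A : ℕ → ℂ → ℂ}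
    (D : Decomp wt F C r N ρ H A) {a : ℂ} {s : ℝ} (hsub : closedBall a s ⊆ ball 0 (r / 4))
    {g : ℂ → ℂ} (hg : ContinuousOn g (closedBall a s))
    (hlim : ∀ᵐ z : ℂ, z ∈ closedBall a s → Tendsto (fun n => nld wt F n z) atTop (𝓝 (g z))) :
    Tendsto (fun n => ∫⁻ z in ball a s, ‖nld wt F n z - g z‖ₑ) atTop (𝓝 0) := by
  obtain ⟨Mg, hMg⟩ := (isCompact_closedBall a s).exists_bound_of_continuousOn hg
  have hsub' : ball a s ⊆ ball 0 r := fun z hz =>
    ball_subset_ball (by linarith) (hsub (ball_subset_closedBall hz))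
  apply tendsto_L1 measurableSet_ball measure_ball_lt_top (fun n => nld wt F n) g
    (fun n => (measurable_nld h n).aestronglyMeasurable)
    ((hg.mono ball_subset_closedBall).aestronglyMeasurable measurableSet_ball) Mg
    (fun z hz => hMg z (ball_subset_closedBall hz)) (24 * C) (5 * r * C) (by positivity) (by positivity)
    N ρ (fun n => 1 / wt n) (fun n => (one_div_pos.2 (hwt n)).le) D.hN
  · intro n
    rw [ae_restrict_iff' measurableSet_ball]
    have := ae_notMem_range (ρ n) univ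
    rw [Measure.restrict_univ] at this
    filter_upwards [this] with z hz hzB
    rw [D.hAE n z (hsub' hzB) hz]
    have h1 := D.hAb n z (hsub (ball_subset_closedBall hzB))
    refine (norm_add_le _ _).trans ?_
    have hw1 : (0 : ℝ) ≤ 1 / wt n := (one_div_pos.2 (hwt n)).le
    rw [norm_mul, Complex.norm_real, Real.norm_of_nonneg hw1, add_comm]
    exact add_le_add h1 (mul_le_mul_of_nonneg_left (norm_sum_le _ _) hw1)
  · rw [ae_restrict_iff' measurableSet_ball]
    filter_upwards [hlim] with z hlz hz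
    exact hlz (ball_subset_closedBall hz)

/-- mass of zeros in small discs off the real axis tends to zero -/
theorem mass_disc (hC : 0 < C) (hwt : ∀ n, 0 < wt n) (h : ∀ n : ℕ, LaplaceLike (F n) (G n) (C * wt n))
    {r : ℝ} (hr : 0 < r) {N : ℕ → ℕ} {ρ : ∀ n, Fin (N n) → ℂ} {H A : ℕ → ℂ → ℂ}
    (D : Decomp wt F C r N ρ H A) {a : ℂ} {s : ℝ} (hs : 0 < s) (hsub : closedBall a s ⊆ ball 0 (r / 4))
    {g : ℂ → ℂ} (hg : DifferentiableOn ℂ g (closedBall a s))
    (hlim : ∀ᵐ z : ℂ, z ∈ closedBall a s → Tendsto (fun n => nld wt F n z) atTop (𝓝 (g z))) :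
    Tendsto (fun n : ℕ => (1 / wt n) * ∑ i, max (s ^ 2 - ‖ρ n i - a‖ ^ 2) 0) atTop (𝓝 0) := by
  have hL1 := L1_conv hC hwt h hr D hsub hg.continuousOn hlim
  have hsub2 : closedBall a s ⊆ ball 0 r := fun z hz => ball_subset_ball (by linarith) (hsub hz)
  apply mass_tendsto_zero hs (fun n => nld wt F n) g hg A (fun n => (D.hA n).mono hsub2) N ρ
    (fun n => 1 / wt n) _ hL1
  intro n
  rw [ae_restrict_iff' measurableSet_ball]
  have := ae_notMem_range (ρ n) univ
  rw [Measure.restrict_univ] at this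
  filter_upwards [this] with z hz hzB
  exact D.hAE n z (hsub2 (ball_subset_closedBall hzB)) hz

/-- the number of zeros in a fixed disc is `o(n)` -/
theorem near_count (hC : 0 < C) (hwt : ∀ n, 0 < wt n) (h : ∀ n : ℕ, LaplaceLike (F n) (G n) (C * wt n))
    {r : ℝ} (hr : 0 < r) {N : ℕ → ℕ} {ρ : ∀ n, Fin (N n) → ℂ} {H A : ℕ → ℂ → ℂ}
    (D : Decomp wt F C r N ρ H A)
    {g : ℂ → ℂ} (hg : ∀ z : ℂ, z.im ≠ 0 → DifferentiableAt ℂ g z)
    (hlim : ∀ᵐ z : ℂ, z.im ≠ 0 → Tendsto (fun n => nld wt F n z) atTop (𝓝 (g z))) :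
    Tendsto (fun n : ℕ => (1 / wt n) *
      ((Finset.univ.filter (fun i => ‖ρ n i‖ ≤ r / 16)).card : ℝ)) atTop (𝓝 0) := by
  classical
  rw [Metric.tendsto_atTop]
  intro ε hε
  have hlog2 : 0 < Real.log 2 := Real.log_pos (by norm_num)
  -- choose t
  set t : ℝ := min (ε * Real.log 2 / (36 * C)) (r / 8) with ht
  have ht0 : 0 < t := lt_min (by positivity) (by positivity)
  have ht1 : 9 * t * C ≤ ε * Real.log 2 / 4 := by
    have : t ≤ ε * Real.log 2 / (36 * C) := min_le_left _ _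
    rw [le_div_iff₀ (by positivity)] at this
    linarith
  have ht2 : t ≤ r / 8 := min_le_right _ _
  -- compact set
  set K : Set ℂ := closedBall 0 (r / 16) ∩ {z | t / 2 ≤ |z.im|} with hK
  have hKc : IsCompact K := (isCompact_closedBall 0 (r / 16)).inter_right
    (isClosed_le continuous_const (continuous_abs.comp Complex.continuous_im))
  obtain ⟨J, hJK, hJ⟩ := hKc.elim_finite_subcover_image (b := K) (c := fun a => ball a (t / 8))
    (fun a _ => isOpen_ball) (by
      intro z hz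
      exact mem_biUnion hz (mem_ball_self (by positivity)))
  obtain ⟨hJfin, hJcov⟩ := hJ
  have hdisc : ∀ a ∈ J, Tendsto (fun n : ℕ => (1 / wt n) *
      ∑ i, max ((t / 4) ^ 2 - ‖ρ n i - a‖ ^ 2) 0) atTop (𝓝 0) := by
    intro a ha
    have haK : a ∈ K := hJK ha
    have him : ∀ z ∈ closedBall a (t / 4), z.im ≠ 0 := by
      intro z hz h0
      have h1 : |z.im - a.im| ≤ t / 4 := by
        have := Complex.abs_im_le_norm (z - a)
        rw [Complex.sub_im] at this
        exact this.trans (by simpa [dist_eq_norm] using hz)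
      rw [h0, zero_sub, abs_neg] at h1
      have h2 : t / 2 ≤ |a.im| := haK.2
      linarith
    apply mass_disc hC hwt h hr D (by positivity) _ (g := g)
      (fun z hz => (hg z (him z hz)).differentiableWithinAt) (hlim.mono fun z h1 hz => h1 (him z hz))
    intro z hz
    have h1 : ‖a‖ ≤ r / 16 := by simpa using haK.1
    have h2 : ‖z - a‖ ≤ t / 4 := by simpa [dist_eq_norm] using hz
    rw [mem_ball_zero_iff]
    have h3 := norm_add_le (z - a) a
    rw [sub_add_cancel] at h3
    linarith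
  have hsumJ : Tendsto (fun n : ℕ => ∑ a ∈ hJfin.toFinset, (1 / wt n) *
      ∑ i, max ((t / 4) ^ 2 - ‖ρ n i - a‖ ^ 2) 0) atTop (𝓝 0) := by
    have := tendsto_finsetSum hJfin.toFinset (fun a ha => hdisc a (hJfin.mem_toFinset.mp ha))
    simpa using this
  rw [Metric.tendsto_atTop] at hsumJ
  have hc0 : 0 < 3 * t ^ 2 / 64 := by positivity
  obtain ⟨n0, hn0⟩ := hsumJ (ε / 2 * (3 * t ^ 2 / 64)) (by positivity)
  refine ⟨n0, fun n hn => ?_⟩
  have hwn : (0 : ℝ) < 1 / wt n := one_div_pos.2 (hwt n)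
  have hmain := hn0 n hn
  rw [Real.dist_eq, sub_zero] at hmain ⊢
  have hnonneg : (0 : ℝ) ≤ (1 / wt n) *
      ((Finset.univ.filter (fun i => ‖ρ n i‖ ≤ r / 16)).card : ℝ) :=
    mul_nonneg hwn.le (Nat.cast_nonneg _)
  rw [abs_of_nonneg hnonneg]
  -- split
  set T : Finset (Fin (N n)) := Finset.univ.filter (fun i => ‖ρ n i‖ ≤ r / 16) with hT
  set T1 : Finset (Fin (N n)) := T.filter (fun i => |(ρ n i).im| ≤ t / 2) with hT1
  set T2 : Finset (Fin (N n)) := T.filter (fun i => ¬ |(ρ n i).im| ≤ t / 2) with hT2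
  have hsplit : (T.card : ℝ) = T1.card + T2.card := by
    have := Finset.card_filter_add_card_filter_not (s := T) (fun i => |(ρ n i).im| ≤ t / 2)
    exact_mod_cast this.symm
  -- strip part
  have hstrip : (T1.card : ℝ) * Real.log 2 ≤ 9 * t * (C * wt n) := by
    apply strip_count (h n) (D.hH n) (D.hfac n) T1 (X := r / 16) ht0
    · intro i hi
      have h1 := (Finset.mem_filter.mp (Finset.mem_filter.mp hi).1).2
      exact (Complex.abs_re_le_norm _).trans h1
    · intro i hi
      exact (Finset.mem_filter.mp hi).2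
  have hpart1 : (1 / wt n) * (T1.card : ℝ) ≤ ε / 4 := by
    have hn1 : (0 : ℝ) < wt n := hwt n
    rw [one_div, inv_mul_le_iff₀ hn1]
    have h2 : (T1.card : ℝ) * Real.log 2 ≤ (wt n) * (ε / 4) * Real.log 2 := by
      calc (T1.card : ℝ) * Real.log 2 ≤ 9 * t * (C * wt n) := hstrip
        _ = (9 * t * C) * wt n := by ring
        _ ≤ (ε * Real.log 2 / 4) * wt n := mul_le_mul_of_nonneg_right ht1 hn1.le
        _ = (wt n) * (ε / 4) * Real.log 2 := by ring
    exact le_of_mul_le_mul_right h2 hlog2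
  -- disc part
  have hpart2 : (1 / wt n) * (T2.card : ℝ) < ε / 2 := by
    have h1 : (T2.card : ℝ) * (3 * t ^ 2 / 64) ≤
        ∑ a ∈ hJfin.toFinset, ∑ i, max ((t / 4) ^ 2 - ‖ρ n i - a‖ ^ 2) 0 := by
      rw [Finset.sum_comm]
      have h2 : (T2.card : ℝ) * (3 * t ^ 2 / 64) = ∑ _i ∈ T2, (3 * t ^ 2 / 64) := by
        rw [Finset.sum_const, nsmul_eq_mul]
      rw [h2]
      calc ∑ _i ∈ T2, (3 * t ^ 2 / 64)
          ≤ ∑ i ∈ T2, ∑ a ∈ hJfin.toFinset, max ((t / 4) ^ 2 - ‖ρ n i - a‖ ^ 2) 0 := by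
            apply Finset.sum_le_sum
            intro i hi
            have hi1 := (Finset.mem_filter.mp (Finset.mem_filter.mp hi).1).2
            have hi2 := (Finset.mem_filter.mp hi).2
            push Not at hi2
            have hiK : ρ n i ∈ K := ⟨by simpa using hi1, hi2.le⟩
            obtain ⟨a, haJ, ha⟩ := mem_iUnion₂.mp (hJcov hiK)
            have ha' : ‖ρ n i - a‖ < t / 8 := by simpa [dist_eq_norm] using ha
            refine le_trans ?_ (Finset.single_le_sum (f := fun a => max ((t / 4) ^ 2 - ‖ρ n i - a‖ ^ 2) 0)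
              (fun _ _ => le_max_right _ _) (hJfin.mem_toFinset.mpr haJ))
            refine le_trans ?_ (le_max_left _ _)
            nlinarith [norm_nonneg (ρ n i - a)]
        _ ≤ ∑ i, ∑ a ∈ hJfin.toFinset, max ((t / 4) ^ 2 - ‖ρ n i - a‖ ^ 2) 0 := by
            apply Finset.sum_le_sum_of_subset_of_nonneg (Finset.subset_univ _)
            intro i _ _
            exact Finset.sum_nonneg fun _ _ => le_max_right _ _
    have h3 : (1 / wt n) * (T2.card : ℝ) * (3 * t ^ 2 / 64) < ε / 2 * (3 * t ^ 2 / 64) := by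
      calc (1 / wt n) * (T2.card : ℝ) * (3 * t ^ 2 / 64)
          = (1 / wt n) * ((T2.card : ℝ) * (3 * t ^ 2 / 64)) := by ring
        _ ≤ (1 / wt n) * ∑ a ∈ hJfin.toFinset, ∑ i, max ((t / 4) ^ 2 - ‖ρ n i - a‖ ^ 2) 0 :=
            mul_le_mul_of_nonneg_left h1 hwn.le
        _ = ∑ a ∈ hJfin.toFinset, (1 / wt n) * ∑ i, max ((t / 4) ^ 2 - ‖ρ n i - a‖ ^ 2) 0 := by
            rw [Finset.mul_sum]
        _ < ε / 2 * (3 * t ^ 2 / 64) := lt_of_le_of_lt (le_abs_self _) hmain
    exact lt_of_mul_lt_mul_right h3 hc0.le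
  rw [hsplit, mul_add]
  linarith

/-- local Lipschitz estimate for the limit -/
theorem deriv_bound (hC : 0 < C) (hwt : ∀ n, 0 < wt n) (h : ∀ n : ℕ, LaplaceLike (F n) (G n) (C * wt n))
    {g : ℂ → ℂ} (hg : ∀ z : ℂ, z.im ≠ 0 → DifferentiableAt ℂ g z)
    (hlim : ∀ᵐ z : ℂ, z.im ≠ 0 → Tendsto (fun n => nld wt F n z) atTop (𝓝 (g z)))
    {z0 : ℂ} {s : ℝ} (hs : 0 < s) (him : ∀ z ∈ closedBall z0 s, z.im ≠ 0)
    {r : ℝ} (hr : 0 < r) (hsub : closedBall z0 s ⊆ ball 0 (r / 32)) :
    ‖deriv g z0‖ ≤ 5312 * C / r := by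
  classical
  obtain ⟨N, ρ, H, A, D⟩ := exists_decomp hC hwt h hr
  set B := ball z0 s with hB
  have hBsub : B ⊆ ball 0 (r / 32) := fun z hz => hsub (ball_subset_closedBall hz)
  let T : ∀ n, Finset (Fin (N n)) := fun n => Finset.univ.filter (fun i => ‖ρ n i‖ ≤ r / 16)
  let w : ℕ → ℝ := fun n => 1 / wt n
  have hw0 : ∀ n, 0 < w n := fun n => one_div_pos.2 (hwt n)
  let P : ℕ → ℂ → ℂ := fun n z => (w n : ℂ) * (∑ i ∈ (T n)ᶜ, (z - ρ n i)⁻¹) + A n z
  let Q : ℕ → ℂ → ℂ := fun n z => (w n : ℂ) * (∑ i ∈ T n, (z - ρ n i)⁻¹)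
  set K : ℝ := 5312 * C / r with hKdef
  have hK0 : 0 ≤ K := by positivity
  have hfar : ∀ n, ∀ i ∈ (T n)ᶜ, ∀ z ∈ ball (0 : ℂ) (r / 32), r / 32 ≤ ‖z - ρ n i‖ := by
    intro n i hi z hz
    have h1 : r / 16 < ‖ρ n i‖ := by
      have := Finset.mem_compl.mp hi
      simp only [T, Finset.mem_filter, Finset.mem_univ, true_and] at this
      push Not at this
      exact this
    have h2 : ‖z‖ < r / 32 := by simpa using hz
    have h3 := norm_sub_norm_le (ρ n i) z
    rw [norm_sub_rev] at h3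
    linarith
  -- `P n` is differentiable with small derivative
  have hPd : ∀ n, ∀ z ∈ ball (0 : ℂ) (r / 32), HasDerivAt (P n)
      ((w n : ℂ) * (∑ i ∈ (T n)ᶜ, (-1 / (z - ρ n i) ^ 2)) + deriv (A n) z) z := by
    intro n z hz
    apply HasDerivAt.add
    · apply HasDerivAt.const_mul
      apply HasDerivAt.fun_sum
      intro i hi
      have hne : z - ρ n i ≠ 0 := by
        intro h0
        have := hfar n i hi z hz
        rw [h0, norm_zero] at this
        linarith
      have := ((hasDerivAt_id z).sub_const (ρ n i)).fun_inv hne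
      simpa using this
    · have hzr : z ∈ ball (0 : ℂ) r := ball_subset_ball (by linarith) hz
      exact ((D.hA n).differentiableAt (isOpen_ball.mem_nhds hzr)).hasDerivAt
  have hPb : ∀ n, ∀ z ∈ ball (0 : ℂ) (r / 32), ‖deriv (P n) z‖ ≤ K := by
    intro n z hz
    rw [(hPd n z hz).deriv]
    refine (norm_add_le _ _).trans ?_
    have h1 : ‖deriv (A n) z‖ ≤ 192 * C / r := D.hAd n z (ball_subset_ball (by linarith) hz)
    have h2 : ‖(w n : ℂ) * (∑ i ∈ (T n)ᶜ, (-1 / (z - ρ n i) ^ 2))‖ ≤ 5120 * C / r := by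
      rw [norm_mul, Complex.norm_real, Real.norm_of_nonneg (hw0 n).le]
      have h3 : ‖∑ i ∈ (T n)ᶜ, (-1 / (z - ρ n i) ^ 2)‖ ≤ N n * (1024 / r ^ 2) := by
        refine (norm_sum_le _ _).trans ?_
        calc ∑ i ∈ (T n)ᶜ, ‖(-1 / (z - ρ n i) ^ 2)‖ ≤ ∑ _i ∈ (T n)ᶜ, (1024 / r ^ 2) := by
              apply Finset.sum_le_sum
              intro i hi
              have h4 := hfar n i hi z hz
              have h4' : 0 < ‖z - ρ n i‖ := lt_of_lt_of_le (by positivity) h4
              rw [norm_div, norm_neg, norm_one, norm_pow]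
              rw [div_le_div_iff₀ (by positivity) (by positivity), one_mul]
              have : (r / 32) ^ 2 ≤ ‖z - ρ n i‖ ^ 2 := pow_le_pow_left₀ (by positivity) h4 2
              nlinarith
          _ = ((T n)ᶜ.card : ℝ) * (1024 / r ^ 2) := by rw [Finset.sum_const, nsmul_eq_mul]
          _ ≤ N n * (1024 / r ^ 2) := by
              apply mul_le_mul_of_nonneg_right _ (by positivity)
              have := Finset.card_le_univ ((T n)ᶜ)
              rw [Fintype.card_fin] at this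
              exact_mod_cast this
      calc w n * ‖∑ i ∈ (T n)ᶜ, (-1 / (z - ρ n i) ^ 2)‖ ≤ w n * (N n * (1024 / r ^ 2)) :=
            mul_le_mul_of_nonneg_left h3 (hw0 n).le
        _ = (w n * N n) * (1024 / r ^ 2) := by ring
        _ ≤ (5 * r * C) * (1024 / r ^ 2) := mul_le_mul_of_nonneg_right (D.hN n) (by positivity)
        _ = 5120 * C / r := by field_simp; ring
    have h5 : 5120 * C / r + 192 * C / r = K := by rw [hKdef]; ring
    linarith
  have hPlip : ∀ n, ∀ z ∈ B, ∀ z' ∈ B, ‖P n z - P n z'‖ ≤ K * ‖z - z'‖ := by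
    intro n z hz z' hz'
    apply Convex.norm_image_sub_le_of_norm_deriv_le (𝕜 := ℂ) (f := P n) (s := ball (0 : ℂ) (r / 32))
      _ (hPb n) (convex_ball _ _) (hBsub hz') (hBsub hz)
    intro x hx
    exact (hPd n x hx).differentiableAt
  -- decomposition
  have hdec : ∀ n, ∀ᵐ z ∂(volume.restrict B), nld wt F n z = P n z + Q n z := by
    intro n
    rw [ae_restrict_iff' measurableSet_ball]
    have := ae_notMem_range (ρ n) univ
    rw [Measure.restrict_univ] at this
    filter_upwards [this] with z hz hzB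
    have hzr : z ∈ ball (0 : ℂ) r := ball_subset_ball (by linarith) (hBsub hzB)
    rw [D.hAE n z hzr hz]
    have : ∑ i, (z - ρ n i)⁻¹ = (∑ i ∈ T n, (z - ρ n i)⁻¹) + ∑ i ∈ (T n)ᶜ, (z - ρ n i)⁻¹ :=
      (Finset.sum_add_sum_compl _ _).symm
    simp only [P, Q, w]
    rw [this]
    ring
  -- `Q n → 0` in `L¹`
  have hnear := near_count hC hwt h hr D hg hlim
  have hBfin : volume B < ⊤ := measure_ball_lt_top
  have hQ : Tendsto (fun n => ∫⁻ z in B, ‖Q n z‖ₑ) atTop (𝓝 0) := by
    set c : ENNReal := ENNReal.ofReal (2 * Real.pi * 1) + volume B * ENNReal.ofReal (1 : ℝ)⁻¹ with hc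
    have hcfin : c ≠ ⊤ := by
      rw [hc]
      exact (ENNReal.add_lt_top.mpr ⟨ENNReal.ofReal_lt_top, ENNReal.mul_lt_top hBfin ENNReal.ofReal_lt_top⟩).ne
    have hbd : ∀ n, ∫⁻ z in B, ‖Q n z‖ₑ ≤ ENNReal.ofReal (w n * ((T n).card : ℝ)) * c := by
      intro n
      have h1 : ∫⁻ z in B, ‖Q n z‖ₑ ≤ ∫⁻ z in B, ENNReal.ofReal (w n) * ∑ i ∈ T n, ‖(z - ρ n i)⁻¹‖ₑ := by
        apply lintegral_mono
        intro z
        simp only [Q]
        rw [enorm_mul]
        gcongr
        · rw [← ofReal_norm, Complex.norm_real, Real.norm_of_nonneg (hw0 n).le]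
        · exact enorm_sum_le _ _
      refine h1.trans ?_
      have hmk : Measurable (fun z : ℂ => ∑ i ∈ T n, ‖(z - ρ n i)⁻¹‖ₑ) :=
        Finset.measurable_fun_sum _ fun i _ => (measurable_id.sub_const (ρ n i)).inv.enorm
      rw [lintegral_const_mul _ hmk, lintegral_finsetSum]
      · calc ENNReal.ofReal (w n) * ∑ i ∈ T n, ∫⁻ z in B, ‖(z - ρ n i)⁻¹‖ₑ
            ≤ ENNReal.ofReal (w n) * ∑ _i ∈ T n, c := by
              gcongr with i _
              exact lintegral_inv_le (ρ n i) B measurableSet_ball one_pos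
          _ = ENNReal.ofReal (w n * ((T n).card : ℝ)) * c := by
              rw [Finset.sum_const, nsmul_eq_mul, ENNReal.ofReal_mul (hw0 n).le, ENNReal.ofReal_natCast,
                mul_assoc]
      · intro i _
        exact (measurable_id.sub_const (ρ n i)).inv.enorm
    have hz : Tendsto (fun n => ENNReal.ofReal (w n * ((T n).card : ℝ)) * c) atTop (𝓝 0) := by
      have h1 : Tendsto (fun n => ENNReal.ofReal (w n * ((T n).card : ℝ))) atTop (𝓝 (ENNReal.ofReal 0)) :=
        ENNReal.tendsto_ofReal hnear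
      rw [ENNReal.ofReal_zero] at h1
      have := ENNReal.Tendsto.mul_const h1 (Or.inr hcfin)
      rwa [zero_mul] at this
    exact tendsto_of_tendsto_of_tendsto_of_le_of_le tendsto_const_nhds hz (fun _ => bot_le) hbd
  -- `P n → g` in `L¹`
  have hsub4 : closedBall z0 s ⊆ ball 0 (r / 4) := fun z hz => ball_subset_ball (by linarith) (hsub hz)
  have hgc : ContinuousOn g (closedBall z0 s) := fun z hz => (hg z (him z hz)).continuousAt.continuousWithinAt
  have hL1 := L1_conv hC hwt h hr D hsub4 hgc (hlim.mono fun z h1 hz => h1 (him z hz))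
  have hPm : ∀ n, AEStronglyMeasurable (P n) (volume.restrict B) := by
    intro n
    have : ContinuousOn (P n) B := fun z hz =>
      (hPd n z (hBsub hz)).continuousAt.continuousWithinAt
    exact this.aestronglyMeasurable measurableSet_ball
  have hgm : AEStronglyMeasurable g (volume.restrict B) :=
    (hgc.mono ball_subset_closedBall).aestronglyMeasurable measurableSet_ball
  have hPg : Tendsto (fun n => eLpNorm (P n - g) 1 (volume.restrict B)) atTop (𝓝 0) := by
    have hsum : Tendsto (fun n => (∫⁻ z in B, ‖nld wt F n z - g z‖ₑ) + ∫⁻ z in B, ‖Q n z‖ₑ) atTop (𝓝 0) := by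
      have := hL1.add hQ
      rwa [add_zero] at this
    refine tendsto_of_tendsto_of_tendsto_of_le_of_le tendsto_const_nhds hsum (fun _ => bot_le) ?_
    intro n
    simp only
    rw [eLpNorm_one_eq_lintegral_enorm]
    have hQm : Measurable (fun z => ‖Q n z‖ₑ) := by
      apply Measurable.enorm
      apply Measurable.const_mul
      exact Finset.measurable_fun_sum _ fun i _ => (measurable_id.sub_const (ρ n i)).inv
    rw [← lintegral_add_right _ hQm]
    apply lintegral_mono_ae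
    filter_upwards [hdec n] with z hz
    have e : (P n - g) z = (nld wt F n z - g z) + (- Q n z) := by
      rw [hz, Pi.sub_apply]; ring
    rw [e]
    refine (enorm_add_le _ _).trans ?_
    rw [enorm_neg]
  have hmeas := tendstoInMeasure_of_tendsto_eLpNorm one_ne_zero hPm hgm hPg
  obtain ⟨ns, hns, hae⟩ := hmeas.exists_seq_tendsto_ae
  rw [ae_restrict_iff' measurableSet_ball] at hae
  have hdense : Dense {z : ℂ | z ∈ B → Tendsto (fun i => P (ns i) z) atTop (𝓝 (g z))} :=
    Measure.dense_of_ae hae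
  set S : Set ℂ := {z : ℂ | z ∈ B → Tendsto (fun i => P (ns i) z) atTop (𝓝 (g z))} with hS
  have hcl : B ⊆ closure (B ∩ S) := hdense.open_subset_closure_inter isOpen_ball
  have hgood : ∀ z ∈ B ∩ S, ∀ z' ∈ B ∩ S, ‖g z - g z'‖ ≤ K * ‖z - z'‖ := by
    intro z hz z' hz'
    have h1 : Tendsto (fun i => ‖P (ns i) z - P (ns i) z'‖) atTop (𝓝 ‖g z - g z'‖) :=
      ((hz.2 hz.1).sub (hz'.2 hz'.1)).norm
    exact le_of_tendsto h1 (Eventually.of_forall fun i => hPlip (ns i) z hz.1 z' hz'.1)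
  have hall : ∀ z ∈ B, ∀ z' ∈ B, ‖g z - g z'‖ ≤ K * ‖z - z'‖ := by
    intro z hz z' hz'
    obtain ⟨u, hu, huz⟩ := mem_closure_iff_seq_limit.mp (hcl hz)
    obtain ⟨u', hu', huz'⟩ := mem_closure_iff_seq_limit.mp (hcl hz')
    have hcz : ContinuousAt g z := (hg z (him z (ball_subset_closedBall hz))).continuousAt
    have hcz' : ContinuousAt g z' := (hg z' (him z' (ball_subset_closedBall hz'))).continuousAt
    have h1 : Tendsto (fun i => ‖g (u i) - g (u' i)‖) atTop (𝓝 ‖g z - g z'‖) :=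
      ((hcz.tendsto.comp huz).sub (hcz'.tendsto.comp huz')).norm
    have h2 : Tendsto (fun i => K * ‖u i - u' i‖) atTop (𝓝 (K * ‖z - z'‖)) :=
      ((huz.sub huz').norm).const_mul K
    exact le_of_tendsto_of_tendsto h1 h2 (Eventually.of_forall fun i => hgood _ (hu i) _ (hu' i))
  apply norm_deriv_le_of_lip' hK0
  filter_upwards [ball_mem_nhds z0 hs] with z hz
  exact hall z hz z0 (mem_ball_self hs)

/-- Main analytic theorem: if the normalised logarithmic derivatives converge almost everywhere in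
the open upper half plane to an analytic function, the limit is locally constant. -/
theorem deriv_eq_zero (hC : 0 < C) (hwt : ∀ n, 0 < wt n) (h : ∀ n : ℕ, LaplaceLike (F n) (G n) (C * wt n))
    (hconj : ∀ n z, F n ((starRingEnd ℂ) z) = (starRingEnd ℂ) (F n z))
    {R : ℂ → ℂ} (hR : ∀ z : ℂ, 0 < z.im → DifferentiableAt ℂ R z)
    (hlim : ∀ᵐ z : ℂ, 0 < z.im → Tendsto (fun n => nld wt F n z) atTop (𝓝 (R z)))
    {z0 : ℂ} (hz0 : 0 < z0.im) : deriv R z0 = 0 := by
  classical
  let g : ℂ → ℂ := fun z => if 0 < z.im then R z else (starRingEnd ℂ) (R ((starRingEnd ℂ) z))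
  have hgup : ∀ z : ℂ, 0 < z.im → g z = R z := fun z hz => if_pos hz
  have hglo : ∀ z : ℂ, z.im < 0 → g z = (starRingEnd ℂ) (R ((starRingEnd ℂ) z)) :=
    fun z hz => if_neg (not_lt.mpr hz.le)
  have hup_nhds : ∀ z : ℂ, 0 < z.im → ∀ᶠ w in 𝓝 z, 0 < w.im := fun z hz =>
    (isOpen_lt continuous_const Complex.continuous_im).mem_nhds hz
  have hlo_nhds : ∀ z : ℂ, z.im < 0 → ∀ᶠ w in 𝓝 z, w.im < 0 := fun z hz =>
    (isOpen_lt Complex.continuous_im continuous_const).mem_nhds hz
  have hg : ∀ z : ℂ, z.im ≠ 0 → DifferentiableAt ℂ g z := by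
    intro z hz
    rcases lt_or_gt_of_ne hz with hz | hz
    · have h1 : DifferentiableAt ℂ (fun z => (starRingEnd ℂ) (R ((starRingEnd ℂ) z))) z := by
        have h2 : DifferentiableAt ℂ R ((starRingEnd ℂ) z) := hR _ (by simpa using hz)
        have h3 := h2.hasDerivAt.conj_conj
        rw [Complex.conj_conj] at h3
        exact h3.differentiableAt
      apply h1.congr_of_eventuallyEq
      filter_upwards [hlo_nhds z hz] with w hw
      exact hglo w hw
    · apply (hR z hz).congr_of_eventuallyEq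
      filter_upwards [hup_nhds z hz] with w hw
      exact hgup w hw
  have hnconj : ∀ n z, nld wt F n ((starRingEnd ℂ) z) = (starRingEnd ℂ) (nld wt F n z) := by
    intro n z
    have h1 : HasDerivAt (F n) (deriv (F n) z) z := ((h n).diff z).hasDerivAt
    have h2 := h1.conj_conj
    have h3 : (starRingEnd ℂ) ∘ F n ∘ (starRingEnd ℂ) = F n := by
      ext w
      simp only [Function.comp_apply]
      rw [hconj, Complex.conj_conj]
    rw [h3] at h2
    unfold nld
    rw [h2.deriv, hconj]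
    simp
  have hlim' : ∀ᵐ z : ℂ, 0 < ((starRingEnd ℂ) z).im →
      Tendsto (fun n => nld wt F n ((starRingEnd ℂ) z)) atTop (𝓝 (R ((starRingEnd ℂ) z))) := by
    have hmp : MeasurePreserving (Complex.conjLIE : ℂ → ℂ) volume volume :=
      Complex.conjLIE.measurePreserving
    exact hmp.quasiMeasurePreserving.tendsto_ae hlim
  have hlimg : ∀ᵐ z : ℂ, z.im ≠ 0 → Tendsto (fun n => nld wt F n z) atTop (𝓝 (g z)) := by
    filter_upwards [hlim, hlim'] with z hl1 hl2 hz
    rcases lt_or_gt_of_ne hz with hz | hz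
    · rw [hglo z hz]
      have h1 := hl2 (by simpa using hz)
      have h2 := (Complex.continuous_conj.tendsto _).comp h1
      refine h2.congr fun n => ?_
      simp only [Function.comp_apply]
      rw [hnconj, Complex.conj_conj]
    · rw [hgup z hz]
      exact hl1 hz
  have hderiv : deriv g z0 = deriv R z0 := by
    apply Filter.EventuallyEq.deriv_eq
    filter_upwards [hup_nhds z0 hz0] with w hw
    exact hgup w hw
  rw [← hderiv]
  -- let `r → ∞`
  set s : ℝ := z0.im / 2 with hs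
  have hs0 : 0 < s := by positivity
  have him : ∀ z ∈ closedBall z0 s, z.im ≠ 0 := by
    intro z hz h0
    have h1 : |z.im - z0.im| ≤ s := by
      have := Complex.abs_im_le_norm (z - z0)
      rw [Complex.sub_im] at this
      exact this.trans (by simpa [dist_eq_norm] using hz)
    rw [h0, zero_sub, abs_neg, abs_of_pos hz0] at h1
    linarith
  have hb : ∀ r : ℝ, 32 * (‖z0‖ + s) < r → ‖deriv g z0‖ ≤ 5312 * C / r := by
    intro r hr
    have hr0 : 0 < r := lt_of_le_of_lt (by positivity) hr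
    apply deriv_bound hC hwt h hg hlimg hs0 him hr0
    intro z hz
    have h2 : ‖z - z0‖ ≤ s := by simpa [dist_eq_norm] using hz
    rw [mem_ball_zero_iff]
    have h3 := norm_add_le (z - z0) z0
    rw [sub_add_cancel] at h3
    linarith
  have hlim0 : Tendsto (fun r : ℝ => 5312 * C / r) atTop (𝓝 0) := tendsto_const_nhds.div_atTop tendsto_id
  have hle : ‖deriv g z0‖ ≤ 0 := by
    apply ge_of_tendsto hlim0
    filter_upwards [eventually_gt_atTop (32 * (‖z0‖ + s))] with r hr
    exact hb r hr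
  exact norm_le_zero_iff.mp hle

end Pool.Agent.Y381.Sph
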