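import Mathlib
import Pool.Agent.Helper509.SphDefs
import Pool.Agent.Helper509.SphRed
import Pool.Agent.Helper509.Emp
import Pool.Agent.Y381.Sph.Seq2
import Pool.Agent.Y381.Sph.Law

/-!
Subsequences of the `f_n`; failure of convergence in measure.
-/

set_option autoImplicit false

open MeasureTheory Filter Topology Matrix ProbabilityTheory

namespace Pool.Agent.Y381.Sph

open Pool.Agent.Helper509.SphDefs Pool.Agent.Helper509.Laplace Pool.Agent.Helper509.SphRed

/-- If a subsequence of the `f_n` converges almost everywhere on the upper half-plane to a function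
analytic there, then the limit has zero derivative. -/
theorem deriv_zero_sub (E : ∀ n : ℕ, Matrix (Fin n) (Fin n) ℂ) (hE : ∀ n, (E n).IsHermitian)
    {C : ℝ} (hC : ∀ n i, |(hE n).eigenvalues i| ≤ C) (φ : ℕ → ℕ) (hφ : ∀ n, 0 < φ n)
    {R : ℂ → ℂ} (hR : DifferentiableOn ℂ R {z : ℂ | 0 < z.im})
    (hlim : ∀ᵐ z : ℂ, 0 < z.im → Tendsto (fun n => fn (φ n) (E (φ n)) z) atTop (𝓝 (R z)))
    {z0 : ℂ} (hz0 : 0 < z0.im) : deriv R z0 = 0 := by
  set C' : ℝ := max C 1 with hC'
  have hC'0 : 0 < C' := lt_of_lt_of_le one_pos (le_max_right _ _)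
  let F : ℕ → ℂ → ℂ := fun n => sphInt (φ n) (E (φ n))
  let G : ℕ → ℝ → ℝ := fun n => mgf (fun U => (φ n : ℝ) * Y (φ n) (E (φ n)) U) (haarU (φ n))
  let wt : ℕ → ℝ := fun n => (φ n : ℝ)
  have hwt : ∀ n, 0 < wt n := fun n => by
    simp only [wt]
    exact_mod_cast hφ n
  have hF : ∀ n, F n = complexMGF (fun U => (φ n : ℝ) * Y (φ n) (E (φ n)) U) (haarU (φ n)) :=
    fun n => sphInt_eq (hE (φ n))
  have hYb : ∀ n U, |Y (φ n) (E (φ n)) U| ≤ C := by
    intro n
    have h1 := hφ n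
    generalize φ n = m at h1
    obtain ⟨k, rfl⟩ : ∃ k, m = k + 1 := ⟨m - 1, by omega⟩
    intro U
    exact Y_bound (hE (k + 1)) (hC (k + 1)) U
  have hLL : ∀ n : ℕ, Pool.Agent.Helper509.Strip.LaplaceLike (F n) (G n) (C' * wt n) := by
    intro n
    rw [hF n]
    apply laplaceLike_mgf
    · exact ((Y_meas (φ n) (E (φ n))).const_mul _).aemeasurable
    · filter_upwards with U
      rw [abs_mul, Nat.abs_cast, mul_comm C']
      exact mul_le_mul_of_nonneg_left ((hYb n U).trans (le_max_left _ _)) (Nat.cast_nonneg _)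
  have hconj : ∀ n z, F n ((starRingEnd ℂ) z) = (starRingEnd ℂ) (F n z) := by
    intro n z
    rw [hF n]
    exact complexMGF_conj z
  apply deriv_eq_zero hC'0 hwt hLL hconj (R := R) _ _ hz0
  · intro z hz
    exact hR.differentiableAt ((isOpen_lt continuous_const Complex.continuous_im).mem_nhds hz)
  · filter_upwards [hlim] with z hlz hz
    refine (hlz hz).congr fun n => ?_
    simp only [fn, nld, F, wt]
    push_cast
    rfl

/-- If the law is not a point mass, the `f_n` are not close to the continuation `R` of the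
R-transform on a part of a half disc of fixed positive area, for all large `n`. -/
theorem not_in_measure {μ : Measure ℝ} (hμ : CompactProb μ) {R : ℂ → ℂ}
    (hR : IsRContinuation μ R) (hd : ∀ a : ℝ, μ ≠ Measure.dirac a)
    (E : ∀ n : ℕ, Matrix (Fin n) (Fin n) ℂ) (hE : Admissible E μ) :
    ∃ ε r : ℝ, 0 < ε ∧ ∀ᶠ n : ℕ in atTop, ENNReal.ofReal ε ≤
      volume {z : ℂ | 0 < z.im ∧ ‖z‖ < r ∧ ε ≤ ‖fn n (E n) z - R z‖} := by
  by_contra hcon
  push Not at hcon
  obtain ⟨C, hC⟩ := hE.bdd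
  let s : ℕ → ℕ → Set ℂ := fun k n =>
    {z : ℂ | 0 < z.im ∧ ‖z‖ < (k : ℝ) ∧ (1 / 2 : ℝ) ^ k ≤ ‖fn n (E n) z - R z‖}
  have hfreq : ∀ k : ℕ, ∃ᶠ n : ℕ in atTop, 0 < n ∧
      volume (s k n) < ENNReal.ofReal ((1 / 2 : ℝ) ^ k) := by
    intro k
    have h1 := hcon ((1 / 2 : ℝ) ^ k) (k : ℝ) (by positivity)
    refine (h1.and_eventually (eventually_gt_atTop 0)).mono ?_
    rintro n ⟨h2, h3⟩
    exact ⟨h3, h2⟩
  obtain ⟨φ, hφ, hφs⟩ := extraction_forall_of_frequently hfreq
  have hsum : ∑' k, volume (s k (φ k)) ≠ ⊤ := by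
    have h1 : ∑' k, volume (s k (φ k)) ≤ ∑' k : ℕ, ENNReal.ofReal ((1 / 2 : ℝ) ^ k) :=
      ENNReal.tsum_le_tsum fun k => (hφs k).2.le
    have h2 : ∑' k : ℕ, ENNReal.ofReal ((1 / 2 : ℝ) ^ k) ≠ ⊤ := by
      rw [← ENNReal.ofReal_tsum_of_nonneg (fun k => by positivity) summable_geometric_two]
      exact ENNReal.ofReal_ne_top
    exact ne_top_of_le_ne_top h2 h1
  have hae := ae_eventually_notMem hsum
  have hlim : ∀ᵐ z : ℂ, 0 < z.im → Tendsto (fun n => fn (φ n) (E (φ n)) z) atTop (𝓝 (R z)) := by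
    filter_upwards [hae] with z hz him
    obtain ⟨k0, hk0⟩ := exists_nat_gt ‖z‖
    rw [tendsto_iff_norm_sub_tendsto_zero]
    have h1 : Tendsto (fun k : ℕ => (1 / 2 : ℝ) ^ k) atTop (𝓝 0) :=
      tendsto_pow_atTop_nhds_zero_of_lt_one (by norm_num) (by norm_num)
    refine squeeze_zero' (Eventually.of_forall fun _ => norm_nonneg _) ?_ h1
    filter_upwards [hz, eventually_ge_atTop k0] with k hk hk1
    by_contra h2
    push Not at h2
    apply hk
    refine ⟨him, ?_, h2.le⟩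
    have : (k0 : ℝ) ≤ k := by exact_mod_cast hk1
    linarith
  obtain ⟨a, ha⟩ := dirac_of_deriv_zero hμ hR (fun z hz =>
    deriv_zero_sub E hE.herm hC φ (fun n => (hφs n).1) hR.1 hlim hz)
  exact hd a ha

/-- no subsequence converges almost everywhere -/
theorem not_ae_sub {μ : Measure ℝ} (hμ : CompactProb μ) {R : ℂ → ℂ}
    (hR : IsRContinuation μ R) (hd : ∀ a : ℝ, μ ≠ Measure.dirac a)
    (E : ∀ n : ℕ, Matrix (Fin n) (Fin n) ℂ) (hE : Admissible E μ) (φ : ℕ → ℕ)
    (hφ : StrictMono φ) :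
    0 < volume {z : ℂ | 0 < z.im ∧ ¬ Tendsto (fun n : ℕ => fn (φ n) (E (φ n)) z) atTop
      (𝓝 (R z))} := by
  rw [pos_iff_ne_zero]
  intro h0
  obtain ⟨C, hC⟩ := hE.bdd
  have hlim : ∀ᵐ z : ℂ, 0 < z.im → Tendsto (fun n : ℕ => fn (φ (n + 1)) (E (φ (n + 1))) z) atTop
      (𝓝 (R z)) := by
    have h1 : ∀ᵐ z : ℂ, 0 < z.im → Tendsto (fun n : ℕ => fn (φ n) (E (φ n)) z) atTop
        (𝓝 (R z)) := by
      rw [ae_iff]
      rw [← h0]
      congr 1
      ext z
      simp only [Set.mem_ofPred_eq, Classical.not_imp]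
    filter_upwards [h1] with z hz him
    exact (hz him).comp (tendsto_add_atTop_nat 1)
  obtain ⟨a, ha⟩ := dirac_of_deriv_zero hμ hR (fun z hz =>
    deriv_zero_sub E hE.herm hC (fun n => φ (n + 1)) (fun n => by
      have : n + 1 ≤ φ (n + 1) := hφ.id_le (n + 1)
      omega) hR.1 hlim hz)
  exact hd a ha

/-- the functions `f_n` of scalar matrices -/
theorem fn_scalar (a : ℝ) {n : ℕ} (hn : 0 < n) (z : ℂ) :
    fn n (Matrix.diagonal (fun _ : Fin n => (a : ℂ))) z = a := by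
  have htr : ∀ (U : unitaryGroup (Fin n) ℂ) (z : ℂ),
      Matrix.trace ((U : Matrix (Fin n) (Fin n) ℂ) * rankOne n z *
        star (U : Matrix (Fin n) (Fin n) ℂ) * Matrix.diagonal (fun _ : Fin n => (a : ℂ))) =
        (a : ℂ) * z := by
    intro U z
    have h1 : Matrix.diagonal (fun _ : Fin n => (a : ℂ)) = (a : ℂ) • (1 : Matrix (Fin n) (Fin n) ℂ) := by
      rw [Matrix.smul_one_eq_diagonal]
    rw [h1, Matrix.mul_smul, Matrix.mul_one, Matrix.trace_smul, Matrix.trace_mul_comm,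
      ← Matrix.mul_assoc]
    have h2 : star (U : Matrix (Fin n) (Fin n) ℂ) * (U : Matrix (Fin n) (Fin n) ℂ) = 1 := by
      exact Unitary.coe_star_mul_self U
    rw [h2, Matrix.one_mul, rankOne, Matrix.trace_diagonal, smul_eq_mul]
    congr 1
    rw [Finset.sum_eq_single (⟨0, hn⟩ : Fin n)]
    · simp
    · intro b _ hb
      rw [if_neg]
      intro h
      exact hb (Fin.ext h)
    · intro h
      exact absurd (Finset.mem_univ _) h
  have hI : sphInt n (Matrix.diagonal (fun _ : Fin n => (a : ℂ))) =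
      fun z => Complex.exp ((n : ℂ) * ((a : ℂ) * z)) := by
    funext z
    unfold sphInt
    simp_rw [htr]
    rw [integral_const, probReal_univ, one_smul]
  have hn0 : (n : ℂ) ≠ 0 := by exact_mod_cast hn.ne'
  have hder : HasDerivAt (fun z : ℂ => Complex.exp ((n : ℂ) * ((a : ℂ) * z)))
      (Complex.exp ((n : ℂ) * ((a : ℂ) * z)) * ((n : ℂ) * ((a : ℂ) * 1))) z :=
    (((hasDerivAt_id z).const_mul (a : ℂ)).const_mul (n : ℂ)).cexp
  unfold fn
  rw [hI, hder.deriv]
  have he := Complex.exp_ne_zero ((n : ℂ) * ((a : ℂ) * z))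
  field_simp

/-- the scalar matrices are admissible for the point masses -/
theorem admissible_scalar (a : ℝ) :
    Admissible (fun n : ℕ => Matrix.diagonal (fun _ : Fin n => (a : ℂ))) (Measure.dirac a) := by
  have hE : ∀ n : ℕ, (Matrix.diagonal (fun _ : Fin n => (a : ℂ))).IsHermitian := by
    intro n
    apply Matrix.isHermitian_diagonal_of_self_adjoint
    ext i
    simp
  refine ⟨hE, ⟨|a|, fun n i => ?_⟩, fun φ => ?_⟩
  · exact Pool.Agent.Helper509.Emp.eigenvalues_diagonal_mem (fun _ => a) (hE n) |a|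
      (fun _ => le_rfl) i
  · rw [integral_dirac]
    apply tendsto_const_nhds.congr'
    filter_upwards [eventually_gt_atTop 0] with n hn
    rw [Pool.Agent.Helper509.Emp.sum_eigenvalues_diagonal (fun _ => a) (hE n) (fun x => φ x)]
    have hn0 : (n : ℝ) ≠ 0 := by exact_mod_cast (Nat.pos_iff_ne_zero.1 hn)
    rw [Finset.sum_const, Finset.card_univ, Fintype.card_fin, nsmul_eq_mul]
    field_simp

end Pool.Agent.Y381.Sph
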